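import Pool.Agent.Q129.AB.Chr
import Pool.Agent.Q29.AB.Stm2

/-!
# AB-CHIW: the number of the types killed by an odd character, with weights
-/

set_option autoImplicit false

open Finset Real
open scoped Classical

namespace Pool.Agent.Q129.AB

open Pool.Agent.Q29.AB

/-- the types killed by a character, in terms of the subsets of a transversal -/
lemma killedW_card_le {G : Type} [CommGroup G] [Fintype G] (hT : S_TRA) (hTW : S_TRAW) {c : G}
    {M : G → ℤ} {g : ℕ} {T : Finset G} {χ : G →* ℂˣ} (hc : c * c = 1)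
    (hG : Fintype.card G = 2 * g) (hM : ∀ x, M (c * x) = M x)
    (hTt : T ∈ types c) (hχ : χ c = -1) :
    (killedW c M χ).card ≤
      (T.powerset.filter fun U => ∑ x ∈ U, (M x : ℂ) * (χ x : ℂ) = wSum M χ T / 2).card := by
  obtain ⟨-, hbij, -⟩ := hT G c g T hc hG hTt
  refine card_le_card_of_injOn (fun Ψ => Ψ ∩ T) ?_ ?_
  · intro Ψ hΨ
    rw [mem_coe, killedW, mem_filter] at hΨ
    rw [mem_coe, mem_filter, mem_powerset]
    refine ⟨inter_subset_right, ?_⟩
    have h1 := hTW G c M T hc hTt hM χ Ψ hχ hΨ.1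
    rw [hΨ.2] at h1
    show wSum M χ (Ψ ∩ T) = _
    linear_combination (-1 / 2) * h1
  · intro Ψ hΨ Ψ' hΨ' h
    rw [mem_coe, killedW, mem_filter] at hΨ hΨ'
    exact hbij.injOn (mem_coe.mpr hΨ.1) (mem_coe.mpr hΨ'.1) h

theorem t_CHIW : S_CHIW := by
  intro hELO hLOW hT hTW G _ _ c M g n χ hc hG hM0 hM hχ hn
  have hn0 : 0 < n := by rw [← hn]; exact orderOf_pos' χ
  have hnz : NeZero n := ⟨hn0.ne'⟩
  obtain ⟨h, hh⟩ := even_order hχ
  rw [hn] at hh
  have hnh : n = 2 * h := by omega
  have hh0 : 0 < h := by omega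
  have hchin : ∀ x, (χ x : ℂ) ^ n = 1 := by
    intro x
    have h1 : (χ ^ orderOf χ) x = 1 := by rw [pow_orderOf_eq_one, MonoidHom.one_apply]
    rw [MonoidHom.pow_apply, hn] at h1
    have h2 := congrArg (fun u : ℂˣ => (u : ℂ)) h1
    simpa using h2
  set ζ : ℂ := Complex.exp (2 * π * Complex.I / n) with hζd
  have hζ : IsPrimitiveRoot ζ n := Complex.isPrimitiveRoot_exp n hn0.ne'
  have hζh : ζ ^ h = -1 := by
    have h1 : ζ ^ h * ζ ^ h = 1 := by
      rw [← pow_add, ← hh]
      exact hζ.pow_eq_one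
    rcases mul_self_eq_one_iff.mp h1 with h2 | h2
    · exfalso
      have h3 := Nat.le_of_dvd hh0 (hζ.dvd_of_pow_eq_one h h2)
      omega
    · exact h2
  have hζ0 : ζ ≠ 0 := hζ.ne_zero hn0.ne'
  -- the transversal
  set T : Finset G := univ.filter fun x => ∃ j < h, (χ x : ℂ) = ζ ^ j with hTd
  have hTt : T ∈ types c := by
    unfold types
    rw [mem_filter]
    refine ⟨mem_univ _, fun x => ?_⟩
    obtain ⟨i, hi, hix⟩ := hζ.eq_pow_of_pow_eq_one (hchin x)
    have hcx : (χ (c * x) : ℂ) = ζ ^ (i + h) := by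
      rw [map_mul, hχ, pow_add, hζh, hix]
      push_cast
      ring
    rw [hTd, mem_filter, mem_filter]
    simp only [mem_univ, true_and]
    constructor
    · rintro ⟨j, hj, hj'⟩ ⟨j', hj1, hj1'⟩
      rw [hcx] at hj'
      rw [← hix] at hj1'
      have e1 := hζ.pow_inj hi (by omega) hj1'
      subst e1
      have e2 := hζ.pow_inj (by omega) (by omega) hj'
      omega
    · intro hx
      have hih : h ≤ i := by
        by_contra hlt
        push Not at hlt
        exact hx ⟨i, hlt, hix.symm⟩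
      refine ⟨i - h, by omega, ?_⟩
      rw [hcx]
      have e1 : i + h = (i - h) + n := by omega
      rw [e1, pow_add, hζ.pow_eq_one, mul_one]
  obtain ⟨hTc, -, -⟩ := hT G c g T hc hG hTt
  -- the fibres
  have hfib : ∀ j : ℕ, (univ.filter fun x => (χ x : ℂ) = ζ ^ j).card = 2 * g / n := by
    intro j
    set y : ℂˣ := Units.mk0 (ζ ^ j) (pow_ne_zero _ hζ0) with hy
    have h1 := chr_fibre χ y (by
      rw [hn]
      ext
      rw [Units.val_pow_eq_pow_val, hy, Units.val_mk0, ← pow_mul, mul_comm, pow_mul,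
        hζ.pow_eq_one, one_pow, Units.val_one])
    rw [hn, hG] at h1
    have h2 : (univ.filter fun x => χ x = y) = univ.filter fun x => (χ x : ℂ) = ζ ^ j := by
      ext x
      rw [mem_filter, mem_filter, Units.ext_iff, hy, Units.val_mk0]
    rw [h2] at h1
    rw [← h1, Nat.mul_div_cancel_left _ hn0]
  have htot : Nat.totient n ≤ h := by
    rw [hnh]
    exact totient_le_half h
  have hlin : LinearIndependent ℚ (fun j : Fin (Nat.totient n) => ζ ^ (j : ℕ)) := by
    have h1 := linearIndependent_pow (K := ℚ) ζ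
    have h2 : (minpoly ℚ ζ).natDegree = Nat.totient n := by
      rw [← Polynomial.cyclotomic_eq_minpoly_rat hζ hn0, Polynomial.natDegree_cyclotomic]
    rw [h2] at h1
    exact h1
  have hmain := hLOW hELO G ℂ T (fun x => (M x : ℂ) * (χ x : ℂ)) M (Nat.totient n) (2 * g / n)
    (fun j => univ.filter fun x => (χ x : ℂ) = ζ ^ (j : ℕ)) (fun j => ζ ^ (j : ℕ))
    (wSum M χ T / 2) (by
      intro j x hx
      rw [mem_filter] at hx
      rw [hTd, mem_filter]
      exact ⟨mem_univ _, j, lt_of_lt_of_le j.2 htot, hx.2⟩) (by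
      intro i j hij
      rw [Finset.disjoint_left]
      intro x hx hx'
      rw [mem_filter] at hx hx'
      apply hij
      apply Fin.ext
      have h2 : n = 2 * h := hnh
      have hi2 := i.2
      have hj2 := j.2
      exact hζ.pow_inj (by omega) (by omega) (hx.2.symm.trans hx'.2)) (fun j => hfib j)
    hlin hM0 (by
      intro j x hx
      rw [mem_filter] at hx
      rw [hx.2, zsmul_eq_mul])
  rw [hTc] at hmain
  refine le_trans ?_ hmain
  exact_mod_cast killedW_card_le hT hTW hc hG hM hTt hχ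

end Pool.Agent.Q129.AB
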