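import Pool.Agent.Q29.AB.Stm

/-!
# Characters of a finite commutative group: image and fibres
-/

set_option autoImplicit false

open Finset Real
open scoped Classical

namespace Pool.Agent.Q129.AB

open Pool.Agent.Q29.AB

section

variable {G : Type} [CommGroup G] [Fintype G]

lemma chr_pow_card (χ : G →* ℂˣ) : χ ^ Fintype.card G = 1 := by
  ext x
  rw [MonoidHom.pow_apply, ← map_pow, pow_card_eq_one, map_one, MonoidHom.one_apply]

lemma orderOf_dvd_card' (χ : G →* ℂˣ) : orderOf χ ∣ Fintype.card G :=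
  orderOf_dvd_of_pow_eq_one (chr_pow_card χ)

lemma orderOf_pos' (χ : G →* ℂˣ) : 0 < orderOf χ :=
  Nat.pos_of_dvd_of_pos (orderOf_dvd_card' χ) Fintype.card_pos

lemma chr_range (χ : G →* ℂˣ) : χ.range = rootsOfUnity (orderOf χ) ℂ := by
  have hn := orderOf_pos' χ
  have : NeZero (orderOf χ) := ⟨hn.ne'⟩
  have hle : χ.range ≤ rootsOfUnity (orderOf χ) ℂ := by
    rintro _ ⟨x, rfl⟩
    rw [mem_rootsOfUnity, ← MonoidHom.pow_apply, pow_orderOf_eq_one, MonoidHom.one_apply]
  refine Subgroup.eq_of_le_of_card_ge hle ?_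
  have h1 : Nat.card (rootsOfUnity (orderOf χ) ℂ) = orderOf χ := Complex.card_rootsOfUnity _
  rw [h1]
  refine Nat.le_of_dvd Nat.card_pos (orderOf_dvd_of_pow_eq_one ?_)
  ext x
  have h2 : ((⟨χ x, ⟨x, rfl⟩⟩ : χ.range)) ^ Nat.card χ.range = 1 := pow_card_eq_one'
  have h3 := congrArg (fun y : χ.range => (((y : ℂˣ)) : ℂ)) h2
  simpa using h3

lemma chr_surj (χ : G →* ℂˣ) (y : ℂˣ) (hy : y ^ orderOf χ = 1) : ∃ x, χ x = y := by
  have h1 : y ∈ χ.range := by
    rw [chr_range, mem_rootsOfUnity]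
    exact hy
  exact h1

lemma chr_image_card (χ : G →* ℂˣ) : (univ.image χ).card = orderOf χ := by
  have hn := orderOf_pos' χ
  have : NeZero (orderOf χ) := ⟨hn.ne'⟩
  have h1 : Nat.card (rootsOfUnity (orderOf χ) ℂ) = orderOf χ := Complex.card_rootsOfUnity _
  rw [← chr_range] at h1
  have h2 : ((univ.image χ : Finset ℂˣ) : Set ℂˣ) = (χ.range : Set ℂˣ) := by
    rw [coe_image, coe_univ, Set.image_univ]
    rfl
  rw [← Set.ncard_coe_finset, h2]
  exact h1

/-- the fibres of a character -/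
lemma chr_fibre (χ : G →* ℂˣ) (y : ℂˣ) (hy : y ^ orderOf χ = 1) :
    orderOf χ * (univ.filter fun x => χ x = y).card = Fintype.card G := by
  have h1 := card_eq_sum_card_image χ (univ : Finset G)
  rw [card_univ] at h1
  rw [h1, sum_congr rfl (g := fun _ => (univ.filter fun x => χ x = y).card), sum_const,
    chr_image_card, smul_eq_mul]
  intro b hb
  rw [mem_image] at hb
  obtain ⟨x, -, hx⟩ := hb
  exact MonoidHom.card_fiber_eq_of_mem_range χ ⟨x, hx⟩ (chr_surj χ y hy)

lemma even_order {c : G} {χ : G →* ℂˣ} (hχ : χ c = -1) : Even (orderOf χ) := by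
  have h1 : (χ ^ orderOf χ) c = 1 := by rw [pow_orderOf_eq_one, MonoidHom.one_apply]
  rw [MonoidHom.pow_apply, hχ] at h1
  by_contra h2
  rw [Nat.not_even_iff_odd] at h2
  rw [h2.neg_one_pow] at h1
  have h3 := congrArg (fun u : ℂˣ => (u : ℂ)) h1
  norm_num at h3

lemma totient_le_half (m : ℕ) : Nat.totient (2 * m) ≤ m := by
  induction m using Nat.strong_induction_on with
  | _ m ih =>
    rcases Nat.even_or_odd m with he | ho
    · rw [Nat.totient_two_mul_of_even he]
      rcases Nat.eq_zero_or_pos m with h0 | h0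
      · rw [h0]; simp
      · obtain ⟨l, hl⟩ := he
        have h1 := ih l (by omega)
        have h2 : m = 2 * l := by omega
        rw [h2]
        omega
    · rw [Nat.totient_two_mul_of_odd ho]
      exact Nat.totient_le m

end

end Pool.Agent.Q129.AB
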