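import Pool.Agent.Q129.AB.MnW

/-!
# AB-MAINAW: assembly, the case of an odd quadratic character, odd weights
-/

set_option autoImplicit false

open Finset Real
open scoped Classical

namespace Pool.Agent.Q129.AB

open Pool.Agent.Q29.AB

theorem t_MAINAW : S_MAINAW := by
  intro hRHO hTOT hRATE hELO hLOW hTRA hTRAW hCHIW hHAL hSIX hPAR hTWO hCNT hCNTW hUNI
  obtain ⟨g₀, hg₀⟩ := hRATE hRHO hTOT (1 / 500) (by norm_num)
  refine ⟨max g₀ 1, ?_⟩
  intro G _ _ c M g χ₀ hg hc hc1 hG h4 hMo hM hχ₀ hq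
  have hM0 : ∀ x, M x ≠ 0 := by
    intro x h0
    have := hMo x
    rw [h0] at this
    exact absurd this (by decide)
  have hCHI : ∀ (n : ℕ) (χ : G →* ℂˣ), χ c = -1 → orderOf χ = n →
      (((killedW c M χ).card : ℕ) : ℝ) ≤ 2 ^ g * rho (2 * g / n) ^ Nat.totient n :=
    fun n χ h1 h2 => hCHIW hELO hLOW hTRA hTRAW G c M g n χ hc hG hM0 hM h1 h2
  have hg1 : 1 ≤ g := le_trans (le_max_right _ _) hg
  have hg2 : g₀ ≤ g := le_trans (le_max_left _ _) hg
  have hgR : (0 : ℝ) < g := by exact_mod_cast hg1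
  have hfin : Fintype (G →* ℂˣ) := Fintype.ofFinite _
  obtain ⟨-, -, hX⟩ := hCNT hTRA G c g hc hc1 hG
  have hO : 2 * ((types c).filter fun Ψ => P2 M χ₀ Ψ).card = 2 ^ g := by
    rw [← hCNTW hTRA hCNT G c M g χ₀ hc hc1 hG h4 hMo hM hχ₀ hq]
    congr 2
    ext Ψ
    rw [mem_filter, mem_filter]
    rfl
  set X : Finset (G →* ℂˣ) := univ.filter fun χ : G →* ℂˣ => χ c = -1 with hXd
  have hXm : ∀ χ : G →* ℂˣ, χ ∈ X ↔ χ c = -1 := by
    intro χ
    rw [hXd, mem_filter]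
    simp
  -- large orders
  set X4 := X.filter fun χ => 4 ≤ Nat.totient (orderOf χ) with hX4
  have hb4 := big_boundW (c := c) (M := M) (g := g) hg1 hCHI hG (ε := 1 / 500)
    (fun n h1 h2 => hg₀ g n hg2 h1 h2) X4 (by
      rw [← hX]
      exact card_le_card (filter_subset _ _)) (by
      intro χ hχ
      rw [hX4, mem_filter] at hχ
      exact (hXm χ).mp hχ.1) (by
      intro χ hχ
      rw [hX4, mem_filter] at hχ
      exact hχ.2) (by norm_num)
  -- order six
  set X6 := X.filter fun χ => orderOf χ = 6 with hX6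
  have hX6m : ∀ χ, χ ∈ X6 ↔ χ c = -1 ∧ orderOf χ = 6 := by
    intro χ
    rw [hX6, mem_filter, hXm]
  have hX6c : (X6.card : ℝ) ≤ g := by
    have : X6.card ≤ g := by
      rw [← hX]
      exact card_le_card (filter_subset _ _)
    exact_mod_cast this
  have hb6 : 2 * ((((types c).filter fun Ψ => P2 M χ₀ Ψ ∧ ∃ χ ∈ X6, wSum M χ Ψ = 0).card : ℕ) : ℝ)
      ≤ g * (2 ^ g * (3 * √2 / (2 * π * g))) := by
    have h1 := pair_boundW hUNI (c := c) (M := M) (n := 6) (by norm_num) X6 hX6m (P2 M χ₀)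
      (2 ^ g * (3 * √2 / (2 * π * g))) (by
      intro χ hχ
      rw [hX6m] at hχ
      have h6 : (6 : ℕ) ∣ 2 * g := by
        rw [← hG, ← hχ.2]
        exact orderOf_dvd_card' χ
      obtain ⟨k, hk⟩ : 3 ∣ g := by omega
      have hk4 : 4 ∣ k := by omega
      have hk1 : 1 ≤ k := by omega
      have h2 := (hSIX hELO hTRA hTRAW hHAL G c M g k χ hc hG hM0 hM hχ.1 hχ.2 hk).2 hk4 hMo
      have h3 : ((killedW c M χ).filter fun Ψ => sInt M (χ ^ 3) Ψ % 4 = 2) =
          ((killedW c M χ).filter (P2 M χ₀)) := by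
        ext Ψ
        rw [mem_filter, mem_filter]
        have h5 : Ψ ∈ killedW c M χ → (sInt M (χ ^ 3) Ψ % 4 = 2 ↔ P2 M χ₀ Ψ) := by
          intro hΨ
          rw [killedW, mem_filter] at hΨ
          refine hPAR G c M g (χ ^ 3) χ₀ Ψ hc hG h4 hMo ?_ hχ₀ ?_ hq hΨ.1
          · rw [MonoidHom.pow_apply, hχ.1]
            ext
            norm_num
          · have := pow_orderOf_eq_one χ
            rw [hχ.2] at this
            rw [← this, ← pow_mul]
        exact ⟨fun h => ⟨h.1, (h5 h.1).mp h.2⟩, fun h => ⟨h.1, (h5 h.1).mpr h.2⟩⟩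
      rw [h3] at h2
      refine h2.trans ?_
      have hkR : (0 : ℝ) < k := by exact_mod_cast hk1
      have h5 := rho_bound hRHO hk1
      have h9 : (g : ℝ) = 3 * k := by rw [hk]; push_cast; ring
      refine mul_le_mul_of_nonneg_left ?_ (by positivity)
      have hpi := Real.pi_pos
      calc rho k * rho (2 * k) / 2 ≤ (√2 / (π * k)) / 2 := by linarith
        _ = 3 * √2 / (2 * π * g) := by
            rw [h9]
            field_simp)
    refine h1.trans ?_
    exact mul_le_mul_of_nonneg_right hX6c (by positivity)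
  -- the good types
  have hsub : ((types c).filter fun Ψ => P2 M χ₀ Ψ) ⊆ goodW c M ∪
      (((types c).filter fun Ψ => ∃ χ ∈ X4, wSum M χ Ψ = 0) ∪
        ((types c).filter fun Ψ => P2 M χ₀ Ψ ∧ ∃ χ ∈ X6, wSum M χ Ψ = 0)) := by
    intro Ψ hΨ
    rw [mem_filter] at hΨ
    rw [mem_union, mem_union, mem_filter, mem_filter, mem_goodW]
    by_contra hcon
    push Not at hcon
    obtain ⟨h1, h2, h3⟩ := hcon
    obtain ⟨χ, hχ, hs⟩ := h1 hΨ.1
    have hn := low_order hTOT (orderOf_pos' χ) (even_order hχ)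
    by_cases hφ : 4 ≤ Nat.totient (orderOf χ)
    · exact h2 hΨ.1 χ (by rw [hX4, mem_filter, hXm]; exact ⟨hχ, hφ⟩) hs
    · push Not at hφ
      rcases hn hφ with h | h | h
      · refine hTWO G c M g 1 χ₀ χ Ψ hc hG h4 hMo hM hχ₀ hq hχ ?_ hΨ.1 hΨ.2 hs
        have := pow_orderOf_eq_one χ
        rw [h] at this
        exact this
      · refine hTWO G c M g 2 χ₀ χ Ψ hc hG h4 hMo hM hχ₀ hq hχ ?_ hΨ.1 hΨ.2 hs
        have := pow_orderOf_eq_one χ
        rw [h] at this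
        exact this
      · exact h3 hΨ.1 hΨ.2 χ ((hX6m χ).mpr ⟨hχ, h⟩) hs
  have hcard := (card_le_card hsub).trans ((card_union_le _ _).trans
    (Nat.add_le_add_left (card_union_le _ _) _))
  have hcardR : ((((types c).filter fun Ψ => P2 M χ₀ Ψ).card : ℕ) : ℝ) ≤
      (((goodW c M).card : ℕ) : ℝ) +
      (((((types c).filter fun Ψ => ∃ χ ∈ X4, wSum M χ Ψ = 0).card : ℕ) : ℝ) +
      ((((types c).filter fun Ψ => P2 M χ₀ Ψ ∧ ∃ χ ∈ X6, wSum M χ Ψ = 0).card : ℕ) : ℝ)) := by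
    exact_mod_cast hcard
  have hOR : 2 * ((((types c).filter fun Ψ => P2 M χ₀ Ψ).card : ℕ) : ℝ) = 2 ^ g := by
    exact_mod_cast hO
  have e1 : (g : ℝ) * (2 ^ g * (3 * √2 / (2 * π * g))) = (3 * √2 / (2 * π)) * 2 ^ g := by
    have := Real.pi_pos
    field_simp
  rw [e1] at hb6
  have h2g : (0 : ℝ) < 2 ^ g := by positivity
  have e2 : (3 * √2 / (2 * π)) * (2 : ℝ) ^ g ≤ 0.6754 * 2 ^ g :=
    mul_le_mul_of_nonneg_right const6 h2g.le
  nlinarith

end Pool.Agent.Q129.AB
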