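import Pool.Agent.Q129.AB.MnW
import Pool.Agent.Q129.AB.MAINB

/-!
# AB-MAINBW: assembly, the other cases, nonzero weights
-/

set_option autoImplicit false

open Finset Real
open scoped Classical

namespace Pool.Agent.Q129.AB

open Pool.Agent.Q29.AB

theorem t_MAINBW : S_MAINBW := by
  intro hRHO hTOT hRATE hELO hLOW hTRA hTRAW hCHIW hHAL hSIX hCNT hUNI
  obtain ⟨g₀, hg₀⟩ := hRATE hRHO hTOT (1 / 500) (by norm_num)
  refine ⟨max g₀ 9000, ?_⟩
  intro G _ _ c M g hg hc hc1 hG hM0 hM hor
  have hCHI : ∀ (n : ℕ) (χ : G →* ℂˣ), χ c = -1 → orderOf χ = n →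
      (((killedW c M χ).card : ℕ) : ℝ) ≤ 2 ^ g * rho (2 * g / n) ^ Nat.totient n :=
    fun n χ h1 h2 => hCHIW hELO hLOW hTRA hTRAW G c M g n χ hc hG hM0 hM h1 h2
  have hg1 : 9000 ≤ g := le_trans (le_max_right _ _) hg
  have hg2 : g₀ ≤ g := le_trans (le_max_left _ _) hg
  have hgp : 0 < g := by omega
  have hgR : (0 : ℝ) < g := by exact_mod_cast hgp
  have hpi := Real.pi_pos
  have hfin : Fintype (G →* ℂˣ) := Fintype.ofFinite _
  obtain ⟨hall, -, hX⟩ := hCNT hTRA G c g hc hc1 hG
  set X : Finset (G →* ℂˣ) := univ.filter fun χ : G →* ℂˣ => χ c = -1 with hXd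
  have hXm : ∀ χ : G →* ℂˣ, χ ∈ X ↔ χ c = -1 := by
    intro χ
    rw [hXd, mem_filter]
    simp
  have h2g : (0 : ℝ) < 2 ^ g := by positivity
  have hallR : (((types c).card : ℕ) : ℝ) = 2 ^ g := by exact_mod_cast hall
  -- large orders
  set X8 := X.filter fun χ => 4 ≤ Nat.totient (orderOf χ) with hX8
  have hb8 := big_boundW (c := c) (M := M) (g := g) hgp hCHI hG (ε := 1 / 500)
    (fun n h1 h2 => hg₀ g n hg2 h1 h2) X8 (by
      rw [← hX]
      exact card_le_card (filter_subset _ _)) (by
      intro χ hχ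
      rw [hX8, mem_filter] at hχ
      exact (hXm χ).mp hχ.1) (by
      intro χ hχ
      rw [hX8, mem_filter] at hχ
      exact hχ.2) (by norm_num)
  by_cases h4 : 4 ∣ g
  · -- no odd quadratic character
    have hnq : ∀ χ : G →* ℂˣ, χ c = -1 → χ ^ 2 ≠ 1 := by
      rcases hor with h | h
      · exact absurd h4 h
      · exact h
    set X4 := X.filter fun χ => orderOf χ = 4 with hX4
    have hX4m : ∀ χ, χ ∈ X4 ↔ χ c = -1 ∧ orderOf χ = 4 := by
      intro χ
      rw [hX4, mem_filter, hXm]
    have hX4c : (X4.card : ℝ) ≤ g := by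
      have : X4.card ≤ g := by
        rw [← hX]
        exact card_le_card (filter_subset _ _)
      exact_mod_cast this
    have hb4 : 2 * ((((types c).filter fun Ψ => ∃ χ ∈ X4, wSum M χ Ψ = 0).card : ℕ) : ℝ)
        ≤ g * (2 ^ g * (4 / (π * g))) := by
      have h1 := pair_bound_allW hUNI (c := c) (M := M) (n := 4) (by norm_num) X4 hX4m
        (2 ^ g * (4 / (π * g))) (by
        intro χ hχ
        rw [hX4m] at hχ
        have h2 := hCHI 4 χ hχ.1 hχ.2
        refine h2.trans ?_
        have h3 : Nat.totient 4 = 2 := by decide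
        rw [h3]
        have h5 := hRHO.2.2.1 (2 * g / 4)
        obtain ⟨m, hm⟩ := h4
        have h6 : 2 * g / 4 = 2 * m := by omega
        rw [h6] at h5 ⊢
        have hm1 : 1 ≤ m := by omega
        have hmR : (0 : ℝ) < m := by exact_mod_cast hm1
        have hgm : (g : ℝ) = 4 * m := by rw [hm]; push_cast; ring
        refine mul_le_mul_of_nonneg_left ?_ h2g.le
        rw [hgm, le_div_iff₀ (by positivity)]
        push_cast at h5
        nlinarith)
      refine h1.trans ?_
      exact mul_le_mul_of_nonneg_right hX4c (by positivity)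
    have hsub : types c ⊆ goodW c M ∪
        (((types c).filter fun Ψ => ∃ χ ∈ X8, wSum M χ Ψ = 0) ∪
          ((types c).filter fun Ψ => ∃ χ ∈ X4, wSum M χ Ψ = 0)) := by
      intro Ψ hΨ
      rw [mem_union, mem_union, mem_filter, mem_filter, mem_goodW]
      by_contra hcon
      push Not at hcon
      obtain ⟨h1, h2, h3⟩ := hcon
      obtain ⟨χ, hχ, hs⟩ := h1 hΨ
      have hn := low_order hTOT (orderOf_pos' χ) (even_order hχ)
      by_cases hφ : 4 ≤ Nat.totient (orderOf χ)
      · exact h2 hΨ χ (by rw [hX8, mem_filter, hXm]; exact ⟨hχ, hφ⟩) hs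
      · push Not at hφ
        rcases hn hφ with h | h | h
        · apply hnq χ hχ
          have := pow_orderOf_eq_one χ
          rw [h] at this
          exact this
        · exact h3 hΨ χ ((hX4m χ).mpr ⟨hχ, h⟩) hs
        · apply hnq (χ ^ 3)
          · rw [MonoidHom.pow_apply, hχ]
            ext
            norm_num
          · have := pow_orderOf_eq_one χ
            rw [h] at this
            rw [← this, ← pow_mul]
    have hcard := (card_le_card hsub).trans ((card_union_le _ _).trans
      (Nat.add_le_add_left (card_union_le _ _) _))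
    have hcardR : (((types c).card : ℕ) : ℝ) ≤ (((goodW c M).card : ℕ) : ℝ) +
        (((((types c).filter fun Ψ => ∃ χ ∈ X8, wSum M χ Ψ = 0).card : ℕ) : ℝ) +
        ((((types c).filter fun Ψ => ∃ χ ∈ X4, wSum M χ Ψ = 0).card : ℕ) : ℝ)) := by
      exact_mod_cast hcard
    have e1 : (g : ℝ) * (2 ^ g * (4 / (π * g))) = 2 * ((2 / π) * 2 ^ g) := by
      field_simp
      ring
    rw [e1] at hb4
    have e2 : (2 / π) * (2 : ℝ) ^ g ≤ 0.64 * 2 ^ g := mul_le_mul_of_nonneg_right const4 h2g.le
    rw [hallR] at hcardR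
    nlinarith
  · -- four does not divide g
    set X6 := X.filter fun χ => orderOf χ = 6 with hX6
    have hX6m : ∀ χ, χ ∈ X6 ↔ χ c = -1 ∧ orderOf χ = 6 := by
      intro χ
      rw [hX6, mem_filter, hXm]
    have hX6c : (X6.card : ℝ) ≤ g := by
      have : X6.card ≤ g := by
        rw [← hX]
        exact card_le_card (filter_subset _ _)
      exact_mod_cast this
    have hb6 : 2 * ((((types c).filter fun Ψ => ∃ χ ∈ X6, wSum M χ Ψ = 0).card : ℕ) : ℝ)
        ≤ g * (2 ^ g * (3 * √2 / (π * g))) := by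
      have h1 := pair_bound_allW hUNI (c := c) (M := M) (n := 6) (by norm_num) X6 hX6m
        (2 ^ g * (3 * √2 / (π * g))) (by
        intro χ hχ
        rw [hX6m] at hχ
        have h6 : (6 : ℕ) ∣ 2 * g := by
          rw [← hG, ← hχ.2]
          exact orderOf_dvd_card' χ
        obtain ⟨k, hk⟩ : 3 ∣ g := by omega
        have hk1 : 1 ≤ k := by omega
        have h2 := (hSIX hELO hTRA hTRAW hHAL G c M g k χ hc hG hM0 hM hχ.1 hχ.2 hk).1
        refine h2.trans ?_
        have hkR : (0 : ℝ) < k := by exact_mod_cast hk1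
        have h5 := rho_bound hRHO hk1
        have h9 : (g : ℝ) = 3 * k := by rw [hk]; push_cast; ring
        refine mul_le_mul_of_nonneg_left ?_ (by positivity)
        calc rho k * rho (2 * k) ≤ √2 / (π * k) := h5
          _ = 3 * √2 / (π * g) := by
              rw [h9]
              field_simp)
      refine h1.trans ?_
      exact mul_le_mul_of_nonneg_right hX6c (by positivity)
    set X2 := X.filter fun χ => orderOf χ = 2 ∨ orderOf χ = 4 with hX2
    have hX2c : X2.card ≤ 4 := by
      refine four_chars hG h4 X2 fun χ hχ => ?_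
      rw [hX2, mem_filter] at hχ
      have := pow_orderOf_eq_one χ
      rcases hχ.2 with h | h
      · rw [h] at this
        rw [show (4 : ℕ) = 2 * 2 by norm_num, pow_mul, this, one_pow]
      · rw [h] at this
        exact this
    have hb2 : ((((types c).filter fun Ψ => ∃ χ ∈ X2, wSum M χ Ψ = 0).card : ℕ) : ℝ) ≤
        (1 / 20) * 2 ^ g := by
      have h1 := card_union_boundW c M X2 (2 ^ g * (1 / 80)) (by
        intro χ hχ
        rw [hX2, mem_filter, hXm] at hχ
        have h2 := hCHI (orderOf χ) χ hχ.1 rfl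
        refine h2.trans ?_
        refine mul_le_mul_of_nonneg_left ?_ h2g.le
        set k := 2 * g / orderOf χ with hk
        have hk1 : 4500 ≤ k := by
          rw [hk]
          rcases hχ.2 with h | h
          · rw [h]
            omega
          · rw [h]
            omega
        have h3 := hRHO.2.2.1 k
        have hkR : (4500 : ℝ) ≤ k := by exact_mod_cast hk1
        obtain ⟨hr0, hr1⟩ := hRHO.1 k
        have h5 : rho k ≤ 1 / 80 := by
          by_contra hcon
          push Not at hcon
          have h6 := Real.pi_gt_d4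
          have h7 : (1 / 80 : ℝ) ^ 2 ≤ rho k ^ 2 := by
            have : (1 / 80 : ℝ) ^ 2 ≤ rho k ^ 2 := by
              apply pow_le_pow_left₀ (by norm_num) hcon.le
            exact this
          have h8 : (3.1415 * 4500 : ℝ) ≤ π * k := by
            apply mul_le_mul h6.le hkR (by norm_num) hpi.le
          have h9 : (1 / 80 : ℝ) ^ 2 * (3.1415 * 4500) ≤ rho k ^ 2 * (π * k) :=
            mul_le_mul h7 h8 (by norm_num) (by positivity)
          norm_num at h9
          linarith
        have h6 : rho k ^ Nat.totient (orderOf χ) ≤ rho k ^ 1 :=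
          pow_le_pow_of_le_one hr0.le hr1 (Nat.totient_pos.mpr (orderOf_pos' χ))
        rw [pow_one] at h6
        exact h6.trans h5)
      refine h1.trans ?_
      have h2 : (X2.card : ℝ) ≤ 4 := by exact_mod_cast hX2c
      nlinarith
    have hsub : types c ⊆ goodW c M ∪
        (((types c).filter fun Ψ => ∃ χ ∈ X8, wSum M χ Ψ = 0) ∪
          (((types c).filter fun Ψ => ∃ χ ∈ X6, wSum M χ Ψ = 0) ∪
            ((types c).filter fun Ψ => ∃ χ ∈ X2, wSum M χ Ψ = 0))) := by
      intro Ψ hΨ
      rw [mem_union, mem_union, mem_union, mem_filter, mem_filter, mem_filter, mem_goodW]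
      by_contra hcon
      push Not at hcon
      obtain ⟨h1, h2, h3, h5⟩ := hcon
      obtain ⟨χ, hχ, hs⟩ := h1 hΨ
      have hn := low_order hTOT (orderOf_pos' χ) (even_order hχ)
      by_cases hφ : 4 ≤ Nat.totient (orderOf χ)
      · exact h2 hΨ χ (by rw [hX8, mem_filter, hXm]; exact ⟨hχ, hφ⟩) hs
      · push Not at hφ
        rcases hn hφ with h | h | h
        · exact h5 hΨ χ (by rw [hX2, mem_filter, hXm]; exact ⟨hχ, Or.inl h⟩) hs
        · exact h5 hΨ χ (by rw [hX2, mem_filter, hXm]; exact ⟨hχ, Or.inr h⟩) hs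
        · exact h3 hΨ χ ((hX6m χ).mpr ⟨hχ, h⟩) hs
    have hcard := (card_le_card hsub).trans ((card_union_le _ _).trans
      (Nat.add_le_add_left ((card_union_le _ _).trans
        (Nat.add_le_add_left (card_union_le _ _) _)) _))
    have hcardR : (((types c).card : ℕ) : ℝ) ≤ (((goodW c M).card : ℕ) : ℝ) +
        (((((types c).filter fun Ψ => ∃ χ ∈ X8, wSum M χ Ψ = 0).card : ℕ) : ℝ) +
        (((((types c).filter fun Ψ => ∃ χ ∈ X6, wSum M χ Ψ = 0).card : ℕ) : ℝ) +
        ((((types c).filter fun Ψ => ∃ χ ∈ X2, wSum M χ Ψ = 0).card : ℕ) : ℝ))) := by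
      exact_mod_cast hcard
    have e1 : (g : ℝ) * (2 ^ g * (3 * √2 / (π * g))) = 2 * ((3 * √2 / (2 * π)) * 2 ^ g) := by
      field_simp
    rw [e1] at hb6
    have e2 : (3 * √2 / (2 * π)) * (2 : ℝ) ^ g ≤ 0.6754 * 2 ^ g :=
      mul_le_mul_of_nonneg_right const6 h2g.le
    rw [hallR] at hcardR
    nlinarith

end Pool.Agent.Q129.AB
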