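import Pool.Agent.Q129.AB.Chr

/-!
# Common lemmas for the assembly
-/

set_option autoImplicit false

open Finset Real
open scoped Classical

namespace Pool.Agent.Q129.AB

open Pool.Agent.Q29.AB

lemma low_order (hTOT : S_TOT) {n : ℕ} (h0 : 0 < n) (he : Even n) (h3 : Nat.totient n < 4) :
    n = 2 ∨ n = 4 ∨ n = 6 := by
  have h1 : n ≤ 18 := by
    have := hTOT n
    have h2 : Nat.totient n ≤ 3 := by omega
    have h4 : Nat.totient n ^ 2 ≤ 3 ^ 2 := Nat.pow_le_pow_left h2 2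
    omega
  have h2 : n % 2 = 0 := Nat.even_iff.mp he
  clear he
  interval_cases n <;> first | omega | (exfalso; revert h3; decide)

section

variable {G : Type} [CommGroup G] [Fintype G]

lemma card_union_bound (c : G) (X : Finset (G →* ℂˣ)) (b : ℝ)
    (hb : ∀ χ ∈ X, (((killed c χ).card : ℕ) : ℝ) ≤ b) :
    ((((types c).filter fun Ψ => ∃ χ ∈ X, charSum χ Ψ = 0).card : ℕ) : ℝ) ≤ X.card * b := by
  have h1 : ((types c).filter fun Ψ => ∃ χ ∈ X, charSum χ Ψ = 0) ⊆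
      X.biUnion fun χ => killed c χ := by
    intro Ψ hΨ
    rw [mem_filter] at hΨ
    obtain ⟨h1, χ, h2, h3⟩ := hΨ
    rw [mem_biUnion]
    refine ⟨χ, h2, ?_⟩
    rw [killed, mem_filter]
    exact ⟨h1, h3⟩
  have h2 := (card_le_card h1).trans card_biUnion_le
  have h3 : (((∑ χ ∈ X, (killed c χ).card : ℕ)) : ℝ) ≤ X.card * b := by
    push_cast
    calc ∑ χ ∈ X, (((killed c χ).card : ℕ) : ℝ) ≤ ∑ _χ ∈ X, b := sum_le_sum hb
      _ = X.card * b := by rw [sum_const, nsmul_eq_mul]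
  exact le_trans (by exact_mod_cast h2) h3

/-- the characters of large order -/
lemma big_bound (hLO : S_LO) (hTRA : S_TRA) (hCHI : S_CHI) {c : G} {g : ℕ} (hg : 0 < g)
    (hc : c * c = 1) (hG : Fintype.card G = 2 * g) {ε : ℝ}
    (hrate : ∀ n : ℕ, n ∣ 2 * g → 4 ≤ Nat.totient n →
      (g : ℝ) * rho (2 * g / n) ^ Nat.totient n ≤ ε)
    (X : Finset (G →* ℂˣ)) (hX : X.card ≤ g) (hXc : ∀ χ ∈ X, χ c = -1)
    (hX4 : ∀ χ ∈ X, 4 ≤ Nat.totient (orderOf χ)) (hε : 0 ≤ ε) :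
    ((((types c).filter fun Ψ => ∃ χ ∈ X, charSum χ Ψ = 0).card : ℕ) : ℝ) ≤ ε * 2 ^ g := by
  have hg0 : (0 : ℝ) < g := by exact_mod_cast hg
  have h1 := card_union_bound c X (2 ^ g * (ε / g)) (by
    intro χ hχ
    have h2 := hCHI hLO hTRA G c g (orderOf χ) χ hc hG (hXc χ hχ) rfl
    refine h2.trans ?_
    have h3 := hrate (orderOf χ) (by rw [← hG]; exact orderOf_dvd_card' χ) (hX4 χ hχ)
    have h4 : rho (2 * g / orderOf χ) ^ Nat.totient (orderOf χ) ≤ ε / g := by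
      rw [le_div_iff₀ hg0, mul_comm]
      exact h3
    exact mul_le_mul_of_nonneg_left h4 (by positivity))
  refine h1.trans ?_
  have h2 : (X.card : ℝ) ≤ g := by exact_mod_cast hX
  calc (X.card : ℝ) * (2 ^ g * (ε / g)) ≤ g * (2 ^ g * (ε / g)) :=
        mul_le_mul_of_nonneg_right h2 (by positivity)
    _ = ε * 2 ^ g := by
        field_simp

/-- the characters of a given order at least three, with a condition on the types -/
lemma pair_bound (hUNI : S_UNI) {c : G} {n : ℕ} (hn : 3 ≤ n)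
    (X : Finset (G →* ℂˣ)) (hXc : ∀ χ, χ ∈ X ↔ χ c = -1 ∧ orderOf χ = n)
    (P : Finset G → Prop) (b : ℝ)
    (hb : ∀ χ ∈ X, ((((killed c χ).filter P).card : ℕ) : ℝ) ≤ b) :
    2 * ((((types c).filter fun Ψ => P Ψ ∧ ∃ χ ∈ X, charSum χ Ψ = 0).card : ℕ) : ℝ) ≤
      X.card * b := by
  have h1 := hUNI G c X P (by
    intro χ hχ
    rw [hXc] at hχ ⊢
    refine ⟨?_, ?_⟩
    · rw [MonoidHom.inv_apply, hχ.1, inv_neg_one]
    · exact (orderOf_inv χ).trans hχ.2) (by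
    intro χ hχ
    rw [hXc] at hχ
    rw [hχ.2]
    exact hn)
  have h3 : (((∑ χ ∈ X, ((killed c χ).filter P).card : ℕ)) : ℝ) ≤ X.card * b := by
    push_cast
    calc ∑ χ ∈ X, ((((killed c χ).filter P).card : ℕ) : ℝ) ≤ ∑ _χ ∈ X, b := sum_le_sum hb
      _ = X.card * b := by rw [sum_const, nsmul_eq_mul]
  refine le_trans ?_ h3
  exact_mod_cast h1

/-- no condition -/
def NoCond {G : Type} (_ : Finset G) : Prop := True

lemma pair_bound_all (hUNI : S_UNI) {c : G} {n : ℕ} (hn : 3 ≤ n)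
    (X : Finset (G →* ℂˣ)) (hXc : ∀ χ, χ ∈ X ↔ χ c = -1 ∧ orderOf χ = n) (b : ℝ)
    (hb : ∀ χ ∈ X, (((killed c χ).card : ℕ) : ℝ) ≤ b) :
    2 * ((((types c).filter fun Ψ => ∃ χ ∈ X, charSum χ Ψ = 0).card : ℕ) : ℝ) ≤ X.card * b := by
  have h1 := pair_bound hUNI hn X hXc NoCond b (fun χ hχ =>
    le_trans (by exact_mod_cast card_filter_le _ _) (hb χ hχ))
  have h2 : ((types c).filter fun Ψ => NoCond Ψ ∧ ∃ χ ∈ X, charSum χ Ψ = 0) =
      ((types c).filter fun Ψ => ∃ χ ∈ X, charSum χ Ψ = 0) := by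
    ext Ψ
    rw [mem_filter, mem_filter]
    exact ⟨fun h => ⟨h.1, h.2.2⟩, fun h => ⟨h.1, trivial, h.2⟩⟩
  rw [h2] at h1
  exact h1

end

lemma mem_good {G : Type} [CommGroup G] [Fintype G] (c : G) (Ψ : Finset G) :
    Ψ ∈ good c ↔ Ψ ∈ types c ∧ ∀ χ : G →* ℂˣ, χ c = -1 → charSum χ Ψ ≠ 0 := by
  rw [good, mem_filter]

lemma sqrt2_lt : √(2 : ℝ) < 1.41422 := by
  rw [Real.sqrt_lt' (by norm_num)]
  norm_num

lemma const6 : 3 * √(2 : ℝ) / (2 * π) ≤ 0.6754 := by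
  have h1 := sqrt2_lt
  have h2 := Real.pi_gt_d4
  have h3 := Real.pi_pos
  rw [div_le_iff₀ (by positivity)]
  nlinarith

lemma const4 : 2 / π ≤ 0.64 := by
  have h2 := Real.pi_gt_d4
  rw [div_le_iff₀ Real.pi_pos]
  nlinarith

end Pool.Agent.Q129.AB
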