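import Pool.Agent.Q129.AB.Mn
import Pool.Agent.Q29.AB.Stm2

/-!
# Common lemmas for the assembly, with weights
-/

set_option autoImplicit false

open Finset Real
open scoped Classical

namespace Pool.Agent.Q129.AB

open Pool.Agent.Q29.AB

section

variable {G : Type} [CommGroup G] [Fintype G]

lemma card_union_boundW (c : G) (M : G → ℤ) (X : Finset (G →* ℂˣ)) (b : ℝ)
    (hb : ∀ χ ∈ X, (((killedW c M χ).card : ℕ) : ℝ) ≤ b) :
    ((((types c).filter fun Ψ => ∃ χ ∈ X, wSum M χ Ψ = 0).card : ℕ) : ℝ) ≤ X.card * b := by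
  have h1 : ((types c).filter fun Ψ => ∃ χ ∈ X, wSum M χ Ψ = 0) ⊆
      X.biUnion fun χ => killedW c M χ := by
    intro Ψ hΨ
    rw [mem_filter] at hΨ
    obtain ⟨h1, χ, h2, h3⟩ := hΨ
    rw [mem_biUnion]
    refine ⟨χ, h2, ?_⟩
    rw [killedW, mem_filter]
    exact ⟨h1, h3⟩
  have h2 := (card_le_card h1).trans card_biUnion_le
  have h3 : (((∑ χ ∈ X, (killedW c M χ).card : ℕ)) : ℝ) ≤ X.card * b := by
    push_cast
    calc ∑ χ ∈ X, (((killedW c M χ).card : ℕ) : ℝ) ≤ ∑ _χ ∈ X, b := sum_le_sum hb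
      _ = X.card * b := by rw [sum_const, nsmul_eq_mul]
  exact le_trans (by exact_mod_cast h2) h3

/-- the characters of large order -/
lemma big_boundW {c : G} {M : G → ℤ} {g : ℕ} (hg : 0 < g)
    (hCHI : ∀ (n : ℕ) (χ : G →* ℂˣ), χ c = -1 → orderOf χ = n →
      (((killedW c M χ).card : ℕ) : ℝ) ≤ 2 ^ g * rho (2 * g / n) ^ Nat.totient n)
    (hG : Fintype.card G = 2 * g) {ε : ℝ}
    (hrate : ∀ n : ℕ, n ∣ 2 * g → 4 ≤ Nat.totient n →
      (g : ℝ) * rho (2 * g / n) ^ Nat.totient n ≤ ε)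
    (X : Finset (G →* ℂˣ)) (hX : X.card ≤ g) (hXc : ∀ χ ∈ X, χ c = -1)
    (hX4 : ∀ χ ∈ X, 4 ≤ Nat.totient (orderOf χ)) (hε : 0 ≤ ε) :
    ((((types c).filter fun Ψ => ∃ χ ∈ X, wSum M χ Ψ = 0).card : ℕ) : ℝ) ≤ ε * 2 ^ g := by
  have hg0 : (0 : ℝ) < g := by exact_mod_cast hg
  have h1 := card_union_boundW c M X (2 ^ g * (ε / g)) (by
    intro χ hχ
    have h2 := hCHI (orderOf χ) χ (hXc χ hχ) rfl
    refine h2.trans ?_
    have h3 := hrate (orderOf χ) (by rw [← hG]; exact orderOf_dvd_card' χ) (hX4 χ hχ)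
    have h4 : rho (2 * g / orderOf χ) ^ Nat.totient (orderOf χ) ≤ ε / g := by
      rw [le_div_iff₀ hg0, mul_comm]
      exact h3
    exact mul_le_mul_of_nonneg_left h4 (by positivity))
  refine h1.trans ?_
  have h2 : (X.card : ℝ) ≤ g := by exact_mod_cast hX
  calc (X.card : ℝ) * (2 ^ g * (ε / g)) ≤ g * (2 ^ g * (ε / g)) :=
        mul_le_mul_of_nonneg_right h2 (by positivity)
    _ = ε * 2 ^ g := by
        field_simp

/-- the characters of a given order at least three, with a condition on the types -/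
lemma pair_boundW (hUNI : S_UNIW) {c : G} {M : G → ℤ} {n : ℕ} (hn : 3 ≤ n)
    (X : Finset (G →* ℂˣ)) (hXc : ∀ χ, χ ∈ X ↔ χ c = -1 ∧ orderOf χ = n)
    (P : Finset G → Prop) (b : ℝ)
    (hb : ∀ χ ∈ X, ((((killedW c M χ).filter P).card : ℕ) : ℝ) ≤ b) :
    2 * ((((types c).filter fun Ψ => P Ψ ∧ ∃ χ ∈ X, wSum M χ Ψ = 0).card : ℕ) : ℝ) ≤
      X.card * b := by
  have h1 := hUNI G c M X P (by
    intro χ hχ
    rw [hXc] at hχ ⊢
    refine ⟨?_, ?_⟩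
    · rw [MonoidHom.inv_apply, hχ.1, inv_neg_one]
    · exact (orderOf_inv χ).trans hχ.2) (by
    intro χ hχ
    rw [hXc] at hχ
    rw [hχ.2]
    exact hn)
  have h3 : (((∑ χ ∈ X, ((killedW c M χ).filter P).card : ℕ)) : ℝ) ≤ X.card * b := by
    push_cast
    calc ∑ χ ∈ X, ((((killedW c M χ).filter P).card : ℕ) : ℝ) ≤ ∑ _χ ∈ X, b := sum_le_sum hb
      _ = X.card * b := by rw [sum_const, nsmul_eq_mul]
  refine le_trans ?_ h3
  exact_mod_cast h1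

lemma pair_bound_allW (hUNI : S_UNIW) {c : G} {M : G → ℤ} {n : ℕ} (hn : 3 ≤ n)
    (X : Finset (G →* ℂˣ)) (hXc : ∀ χ, χ ∈ X ↔ χ c = -1 ∧ orderOf χ = n) (b : ℝ)
    (hb : ∀ χ ∈ X, (((killedW c M χ).card : ℕ) : ℝ) ≤ b) :
    2 * ((((types c).filter fun Ψ => ∃ χ ∈ X, wSum M χ Ψ = 0).card : ℕ) : ℝ) ≤ X.card * b := by
  have h1 := pair_boundW hUNI (M := M) hn X hXc NoCond b (fun χ hχ =>
    le_trans (by exact_mod_cast card_filter_le _ _) (hb χ hχ))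
  have h2 : ((types c).filter fun Ψ => NoCond Ψ ∧ ∃ χ ∈ X, wSum M χ Ψ = 0) =
      ((types c).filter fun Ψ => ∃ χ ∈ X, wSum M χ Ψ = 0) := by
    ext Ψ
    rw [mem_filter, mem_filter]
    exact ⟨fun h => ⟨h.1, h.2.2⟩, fun h => ⟨h.1, trivial, h.2⟩⟩
  rw [h2] at h1
  exact h1

end

lemma mem_goodW {G : Type} [CommGroup G] [Fintype G] (c : G) (M : G → ℤ) (Ψ : Finset G) :
    Ψ ∈ goodW c M ↔ Ψ ∈ types c ∧ ∀ χ : G →* ℂˣ, χ c = -1 → wSum M χ Ψ ≠ 0 := by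
  rw [goodW, mem_filter]

/-- the weighted parity condition -/
def P2 {G : Type} [CommGroup G] (M : G → ℤ) (χ : G →* ℂˣ) (Ψ : Finset G) : Prop :=
  sInt M χ Ψ % 4 = 2

lemma rho_bound (hRHO : S_RHO) {k : ℕ} (hk : 1 ≤ k) : rho k * rho (2 * k) ≤ √2 / (π * k) := by
  have hpi := Real.pi_pos
  have hk0 : (0 : ℝ) < k := by exact_mod_cast hk
  have h3 := hRHO.2.2.1 k
  have h4 := hRHO.2.2.2 k
  have h5 : (rho k * rho (2 * k) * (π * k)) ^ 2 ≤ 2 := by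
    have e1 : (rho k * rho (2 * k) * (π * k)) ^ 2 =
        (rho k ^ 2 * (π * k)) * (rho (2 * k) ^ 2 * (π * k)) := by ring
    rw [e1]
    calc (rho k ^ 2 * (π * k)) * (rho (2 * k) ^ 2 * (π * k)) ≤ 2 * 1 :=
          mul_le_mul h3 h4 (by positivity) (by norm_num)
      _ = 2 := by norm_num
  rw [le_div_iff₀ (by positivity)]
  exact Real.le_sqrt_of_sq_le h5

end Pool.Agent.Q129.AB
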