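import Pool.Agent.Q129.AB.Chr
import Pool.Agent.Q29.AB.Stm2

/-!
# AB-TWOW: characters of 2-power order do not kill types with an odd parity, odd weights
-/

set_option autoImplicit false

open Finset Real
open scoped Classical

namespace Pool.Agent.Q129.AB

open Pool.Agent.Q29.AB

/-- a combination of roots of unity of 2-power order with an odd sum of the coefficients is not
zero -/
lemma two_wsum_ne {ι : Type} (U : Finset ι) (w : ι → ℤ) (hU : Odd (∑ x ∈ U, w x)) (a : ℕ)
    (f : ι → ℂ) (hf : ∀ x ∈ U, f x ^ (2 ^ a) = 1) : ∑ x ∈ U, (w x : ℂ) * f x ≠ 0 := by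
  intro h0
  set n : ℕ := 2 ^ a with hn
  have hn0 : 0 < n := by positivity
  have hnz : NeZero n := ⟨hn0.ne'⟩
  set ζ : ℂ := Complex.exp (2 * π * Complex.I / n) with hζd
  have hζ : IsPrimitiveRoot ζ n := Complex.isPrimitiveRoot_exp n hn0.ne'
  have hex : ∀ x, ∃ i : ℕ, x ∈ U → ζ ^ i = f x := by
    intro x
    by_cases hx : x ∈ U
    · obtain ⟨i, -, hi⟩ := hζ.eq_pow_of_pow_eq_one (hf x hx)
      exact ⟨i, fun _ => hi⟩
    · exact ⟨0, fun h => absurd h hx⟩
  choose e he using hex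
  set P : Polynomial ℤ := ∑ x ∈ U, Polynomial.C (w x) * Polynomial.X ^ e x with hP
  have h1 : Polynomial.aeval ζ P = 0 := by
    rw [hP, map_sum, ← h0]
    refine sum_congr rfl fun x hx => ?_
    rw [map_mul, map_pow, Polynomial.aeval_X, he x hx, Polynomial.aeval_C]
    rfl
  have hint : IsIntegral ℤ ζ := hζ.isIntegral hn0
  have h2 : minpoly ℤ ζ ∣ P := minpoly.isIntegrallyClosed_dvd hint h1
  rw [← Polynomial.cyclotomic_eq_minpoly hζ hn0] at h2
  obtain ⟨Q, hQ⟩ := h2
  have h3 := congrArg (Polynomial.eval 1) hQ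
  rw [Polynomial.eval_mul] at h3
  have h4 : Polynomial.eval 1 P = ∑ x ∈ U, w x := by
    rw [hP, Polynomial.eval_finsetSum]
    simp
  rw [h4] at h3
  have h5 : (2 : ℤ) ∣ Polynomial.eval 1 (Polynomial.cyclotomic n ℤ) := by
    rcases a with _ | b
    · rw [hn, pow_zero, Polynomial.cyclotomic_one]
      simp
    · have : Fact (Nat.Prime 2) := ⟨Nat.prime_two⟩
      rw [hn, Polynomial.eval_one_cyclotomic_prime_pow]
      norm_num
  have h6 : (2 : ℤ) ∣ ∑ x ∈ U, w x := by
    rw [h3]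
    exact Dvd.dvd.mul_right h5 _
  rw [Int.odd_iff] at hU
  omega

/-- the sum of an odd function over a type, by a transversal -/
lemma odd_sum {G R : Type} [CommGroup G] [Fintype G] [CommRing R] {c : G} {T Ψ : Finset G}
    (hc : c * c = 1) (hT : T ∈ types c) (hΨ : Ψ ∈ types c) (F : G → R)
    (hF : ∀ x, F (c * x) = -F x) :
    ∑ x ∈ Ψ, F x = ∑ x ∈ T, (if x ∈ Ψ then F x else -F x) := by
  unfold types at hT hΨ
  rw [mem_filter] at hT hΨ
  have h1 : ∑ x ∈ Ψ, F x = ∑ x ∈ Ψ.filter (fun x => x ∈ T), F x +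
      ∑ x ∈ Ψ.filter (fun x => ¬ x ∈ T), F x := (sum_filter_add_sum_filter_not _ _ _).symm
  have h2 : ∑ x ∈ T, (if x ∈ Ψ then F x else -F x) =
      ∑ x ∈ T.filter (fun x => x ∈ Ψ), F x + ∑ x ∈ T.filter (fun x => ¬ x ∈ Ψ), -F x := by
    rw [sum_ite]
  rw [h1, h2]
  have h3 : Ψ.filter (fun x => x ∈ T) = T.filter (fun x => x ∈ Ψ) := by
    ext x
    rw [mem_filter, mem_filter, and_comm]
  rw [h3]
  congr 1
  refine sum_nbij' (fun x => c * x) (fun x => c * x) ?_ ?_ ?_ ?_ ?_
  · intro x hx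
    rw [mem_filter] at hx ⊢
    refine ⟨(hT.2 x).mpr hx.2, fun h => ?_⟩
    exact (hΨ.2 x).mp h hx.1
  · intro x hx
    rw [mem_filter] at hx ⊢
    refine ⟨(hΨ.2 x).mpr hx.2, fun h => ?_⟩
    exact (hT.2 x).mp h hx.1
  · intro x _
    rw [← mul_assoc, hc, one_mul]
  · intro x _
    rw [← mul_assoc, hc, one_mul]
  · intro x _
    rw [hF, neg_neg]

theorem t_TWOW : S_TWOW := by
  intro G _ _ c M g a χ₀ χ Ψ hc hG h4 hMo hM hχ₀ hq hχ ha hΨ hs
  have hq' : ∀ x, χ₀ x = 1 ∨ χ₀ x = -1 := by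
    intro x
    have h1 : (χ₀ ^ 2) x = 1 := by rw [hq, MonoidHom.one_apply]
    rw [MonoidHom.pow_apply, pow_two] at h1
    have h2 := congrArg (fun u : ℂˣ => (u : ℂ)) h1
    simp only [Units.val_mul, Units.val_one] at h2
    rcases mul_self_eq_one_iff.mp h2 with h3 | h3
    · left
      exact Units.ext h3
    · right
      exact Units.ext (by rw [h3]; simp)
  have hne : (1 : ℂˣ) ≠ -1 := by
    intro h
    have h3 := congrArg (fun u : ℂˣ => (u : ℂ)) h
    norm_num at h3
  set T : Finset G := univ.filter fun x => χ₀ x = 1 with hTd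
  have hTm : ∀ x, x ∈ T ↔ χ₀ x = 1 := by
    intro x
    rw [hTd, mem_filter]
    simp
  have hTt : T ∈ types c := by
    unfold types
    rw [mem_filter]
    refine ⟨mem_univ _, fun x => ?_⟩
    rw [hTm, hTm, map_mul, hχ₀]
    rcases hq' x with h | h
    · rw [h, mul_one]
      exact ⟨fun h1 => absurd h1.symm hne, fun h1 => absurd rfl h1⟩
    · rw [h, neg_one_mul, neg_neg]
      exact ⟨fun _ h1 => hne h1.symm, fun _ => rfl⟩
  -- the number of elements of T
  have hTc : T.card = g := by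
    have h2 : orderOf χ₀ = 2 := by
      refine orderOf_eq_prime hq ?_
      intro h
      rw [h, MonoidHom.one_apply] at hχ₀
      exact hne hχ₀
    have h3 := chr_fibre χ₀ 1 (one_pow _)
    rw [h2, hG] at h3
    have h4 : (univ.filter fun x => χ₀ x = 1).card = g := by omega
    exact h4
  -- the value on the quadratic character
  have hsT : sInt M χ₀ Ψ = ∑ x ∈ T, (if x ∈ Ψ then M x else -M x) := by
    have h1 := odd_sum hc hTt hΨ (fun x => M x * (if χ₀ x = 1 then 1 else -1)) (by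
      intro x
      rw [hM, map_mul, hχ₀]
      rcases hq' x with h | h
      · rw [h, mul_one, if_neg (Ne.symm hne), if_pos rfl]
        ring
      · rw [h, neg_one_mul, neg_neg, if_pos rfl, if_neg (Ne.symm hne)]
        ring)
    unfold sInt
    rw [h1]
    refine sum_congr rfl fun x hx => ?_
    rw [if_pos ((hTm x).mp hx), mul_one]
  have hwT : ∀ ψ : G →* ℂˣ, ψ c = -1 → wSum M ψ Ψ =
      ∑ x ∈ T, ((if x ∈ Ψ then M x else -M x : ℤ) : ℂ) * (ψ x : ℂ) := by
    intro ψ hψ
    have h1 := odd_sum hc hTt hΨ (fun x => (M x : ℂ) * (ψ x : ℂ)) (by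
      intro x
      rw [hM, map_mul, hψ]
      push_cast
      ring)
    unfold wSum
    rw [h1]
    refine sum_congr rfl fun x _ => ?_
    split_ifs
    · rfl
    · push_cast
      ring
  rw [hwT χ hχ]
  by_cases hχχ : χ = χ₀
  · subst hχχ
    have h1 : ∑ x ∈ T, ((if x ∈ Ψ then M x else -M x : ℤ) : ℂ) * (χ x : ℂ) =
        ((sInt M χ Ψ : ℤ) : ℂ) := by
      rw [hsT, Int.cast_sum]
      refine sum_congr rfl fun x hx => ?_
      rw [(hTm x).mp hx, Units.val_one, mul_one]
    rw [h1]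
    intro h0
    have h2 : sInt M χ Ψ = 0 := by exact_mod_cast h0
    rw [h2] at hs
    norm_num at hs
  · -- χ is not trivial on T
    obtain ⟨t, htT, ht⟩ : ∃ t ∈ T, χ t ≠ 1 := by
      by_contra hcon
      push Not at hcon
      apply hχχ
      ext x
      rcases hq' x with h | h
      · rw [h, hcon x ((hTm x).mpr h)]
      · have h1 : χ₀ (c * x) = 1 := by
          rw [map_mul, hχ₀, h, neg_one_mul, neg_neg]
        have h2 := hcon (c * x) ((hTm _).mpr h1)
        rw [map_mul, hχ, neg_one_mul, neg_eq_iff_eq_neg] at h2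
        rw [h, h2]
    have h1 : ∑ x ∈ T, (χ x : ℂ) = 0 := by
      have e1 : ∑ x ∈ T, (χ (t * x) : ℂ) = ∑ x ∈ T, (χ x : ℂ) := by
        refine sum_nbij' (fun x => t * x) (fun x => t⁻¹ * x) ?_ ?_ ?_ ?_ ?_
        · intro x hx
          rw [hTm] at hx htT ⊢
          rw [map_mul, hx, htT, mul_one]
        · intro x hx
          rw [hTm] at hx htT ⊢
          rw [map_mul, map_inv, hx, htT, inv_one, mul_one]
        · intro x _
          simp
        · intro x _
          simp
        · intro x _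
          rfl
      have e2 : ∑ x ∈ T, (χ (t * x) : ℂ) = (χ t : ℂ) * ∑ x ∈ T, (χ x : ℂ) := by
        rw [mul_sum]
        refine sum_congr rfl fun x _ => ?_
        rw [map_mul, Units.val_mul]
      have e3 : ((χ t : ℂ) - 1) * ∑ x ∈ T, (χ x : ℂ) = 0 := by
        rw [sub_mul, ← e2, e1, one_mul, sub_self]
      refine (mul_eq_zero.mp e3).resolve_left ?_
      intro e4
      apply ht
      exact Units.ext (by rw [Units.val_one]; exact sub_eq_zero.mp e4)
    -- the integers w
    have hw : ∀ x, ∃ w : ℤ, (if x ∈ Ψ then M x else -M x) = 1 + 2 * w := by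
      intro x
      obtain ⟨r, hr⟩ := hMo x
      by_cases hx : x ∈ Ψ
      · exact ⟨r, by rw [if_pos hx, hr]; ring⟩
      · exact ⟨-r - 1, by rw [if_neg hx, hr]; ring⟩
    choose w hw using hw
    have h2 : sInt M χ₀ Ψ = g + 2 * ∑ x ∈ T, w x := by
      rw [hsT, sum_congr rfl fun x _ => hw x, sum_add_distrib, ← mul_sum, sum_const, hTc]
      simp
    have hodd : Odd (∑ x ∈ T, w x) := by
      rw [Int.odd_iff]
      obtain ⟨l, hl⟩ := h4
      rw [h2, hl] at hs
      push_cast at hs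
      omega
    have h3 : ∑ x ∈ T, ((if x ∈ Ψ then M x else -M x : ℤ) : ℂ) * (χ x : ℂ) =
        2 * ∑ x ∈ T, (w x : ℂ) * (χ x : ℂ) := by
      have e1 : ∀ x, ((if x ∈ Ψ then M x else -M x : ℤ) : ℂ) * (χ x : ℂ) =
          (χ x : ℂ) + 2 * ((w x : ℂ) * (χ x : ℂ)) := by
        intro x
        rw [hw x]
        push_cast
        ring
      rw [sum_congr rfl fun x _ => e1 x, sum_add_distrib, h1, zero_add, ← mul_sum]
    rw [h3]
    refine mul_ne_zero (by norm_num) ?_
    refine two_wsum_ne T w hodd a (fun x => (χ x : ℂ)) fun x _ => ?_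
    have h5 : (χ ^ (2 ^ a)) x = 1 := by rw [ha, MonoidHom.one_apply]
    rw [MonoidHom.pow_apply] at h5
    have h6 := congrArg (fun u : ℂˣ => (u : ℂ)) h5
    simpa using h6

end Pool.Agent.Q129.AB
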